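import Pool.Agent.Helper62.PM.St6

/-!
# Project PM part 6, module ANA: the comparison polynomial
-/

set_option autoImplicit false

open MeasureTheory Metric Set Filter Topology
open scoped RealInnerProductSpace ContDiff

namespace Pool.Agent.Helper56.PM6

open Pool.Agent.Helper62.PM6
open Pool.Agent.Helper62.Mink

/-- **Module ANA.** -/
theorem hANA : StANA := by
  intro f b c k hf hk hk2 hc hT
  -- near the point zero
  have h1 : ∀ᶠ t in 𝓝[≠] (0 : ℝ), c / 2 < (f t - b * t) / t ^ k :=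
    hT.eventually (lt_mem_nhds (half_lt_self hc))
  rw [eventually_nhdsWithin_iff, Metric.eventually_nhds_iff] at h1
  obtain ⟨δ, hδ, h2⟩ := h1
  -- the value at the point zero
  have hf0 : f 0 = 0 := by
    have hc0 : ContinuousAt f 0 := hf.continuousAt (Icc_mem_nhds (by norm_num) (by norm_num))
    have h3 : Tendsto (fun t : ℝ => f t - b * t) (𝓝[≠] 0) (𝓝 (f 0 - b * 0)) := by
      have h4 : ContinuousAt (fun t : ℝ => f t - b * t) 0 :=
        hc0.sub (continuousAt_const.mul continuousAt_id)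
      exact h4.tendsto.mono_left nhdsWithin_le_nhds
    have h5 : Tendsto (fun t : ℝ => t ^ k * ((f t - b * t) / t ^ k)) (𝓝[≠] 0) (𝓝 (0 ^ k * c)) := by
      have h6 : Tendsto (fun t : ℝ => t ^ k) (𝓝[≠] 0) (𝓝 (0 ^ k)) :=
        ((continuous_pow k).tendsto 0).mono_left nhdsWithin_le_nhds
      exact h6.mul hT
    have h7 : Tendsto (fun t : ℝ => f t - b * t) (𝓝[≠] 0) (𝓝 (0 ^ k * c)) := by
      refine h5.congr' ?_
      filter_upwards [self_mem_nhdsWithin] with t ht
      have ht0 : t ≠ 0 := ht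
      exact mul_div_cancel₀ (f t - b * t) (pow_ne_zero k ht0)
    have h8 := tendsto_nhds_unique h3 h7
    rw [zero_pow (by omega), zero_mul, mul_zero, sub_zero] at h8
    exact h8
  -- the bound
  obtain ⟨C, hC⟩ := isCompact_Icc.exists_bound_of_continuousOn hf
  have hC0 : 0 ≤ C := le_trans (norm_nonneg _) (hC 0 ⟨by norm_num, by norm_num⟩)
  have hpow : 0 < δ ^ (k + 2) := pow_pos hδ _
  have hnum : 0 ≤ C + |b| + c / 2 := by positivity
  have hk' : Even (k + 2) := hk.add (by norm_num)
  refine ⟨(C + |b| + c / 2) / δ ^ (k + 2), div_nonneg hnum hpow.le, ?_⟩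
  intro t ht
  have hM : 0 ≤ (C + |b| + c / 2) / δ ^ (k + 2) := div_nonneg hnum hpow.le
  have ht2 : 0 ≤ t ^ (k + 2) := hk'.pow_nonneg t
  have habs : |t| ≤ 1 := abs_le.2 ht
  by_cases h0 : t = 0
  · subst h0
    rw [hf0, zero_pow (by omega), zero_pow (by omega)]
    simp
  by_cases hlt : |t| < δ
  · have h9 := h2 (show dist t 0 < δ by rw [Real.dist_eq, sub_zero]; exact hlt) h0
    have htk : 0 < t ^ k := hk.pow_pos h0
    rw [lt_div_iff₀ htk] at h9
    have h10 : 0 ≤ (C + |b| + c / 2) / δ ^ (k + 2) * t ^ (k + 2) := mul_nonneg hM ht2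
    linarith
  · push Not at hlt
    have h11 : δ ^ (k + 2) ≤ t ^ (k + 2) := by
      rw [← hk'.pow_abs t]
      exact pow_le_pow_left₀ hδ.le hlt _
    have h12 : C + |b| + c / 2 ≤ (C + |b| + c / 2) / δ ^ (k + 2) * t ^ (k + 2) := by
      rw [div_mul_eq_mul_div, le_div_iff₀ hpow]
      exact mul_le_mul_of_nonneg_left h11 hnum
    have h13 : b * t ≤ |b| := by
      calc b * t ≤ |b * t| := le_abs_self _
        _ = |b| * |t| := abs_mul b t
        _ ≤ |b| * 1 := mul_le_mul_of_nonneg_left habs (abs_nonneg b)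
        _ = |b| := mul_one _
    have h14 : c / 2 * t ^ k ≤ c / 2 := by
      have h15 : t ^ k ≤ 1 := by
        rw [← hk.pow_abs t]
        exact pow_le_one₀ (abs_nonneg t) habs
      calc c / 2 * t ^ k ≤ c / 2 * 1 := mul_le_mul_of_nonneg_left h15 (by positivity)
        _ = c / 2 := mul_one _
    have h16 := hC t ht
    rw [Real.norm_eq_abs] at h16
    have h17 := (abs_le.1 h16).1
    linarith

end Pool.Agent.Helper56.PM6
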