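import Pool.Agent.Helper62.PM.St

/-!
# Project PM (MP_ae3a4d_gt): module M, the operator `h ↦ h * (P - N)`
-/

set_option autoImplicit false

open MeasureTheory Metric Set Filter Topology
open scoped RealInnerProductSpace ContDiff

namespace Pool.Agent.Helper56.PM

open Pool.Agent.Helper62.PM
open Pool.Agent.Helper62.Mink

variable {n : ℕ}

/-! ### rotations -/

private theorem isRot_trans {a b : E n ≃ₗᵢ[ℝ] E n} (ha : IsRot a) (hb : IsRot b) : IsRot (a.trans b) := by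
  unfold IsRot at *
  have e1 : ((a.trans b).toLinearEquiv.toLinearMap : E n →ₗ[ℝ] E n) =
      (b.toLinearEquiv.toLinearMap : E n →ₗ[ℝ] E n) ∘ₗ (a.toLinearEquiv.toLinearMap : E n →ₗ[ℝ] E n) := rfl
  rw [e1, LinearMap.det_comp, ha, hb, one_mul]

private theorem isRot_symm {a : E n ≃ₗᵢ[ℝ] E n} (ha : IsRot a) : IsRot a.symm := by
  unfold IsRot at *
  have e1 : (a.symm.toLinearEquiv.toLinearMap : E n →ₗ[ℝ] E n) ∘ₗ (a.toLinearEquiv.toLinearMap : E n →ₗ[ℝ] E n) =
      LinearMap.id := by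
    ext x
    simp
  have e2 := congrArg LinearMap.det e1
  rw [LinearMap.det_comp, ha, mul_one, LinearMap.det_id] at e2
  exact e2

private theorem isRot_refl : IsRot (LinearIsometryEquiv.refl ℝ (E n)) := by
  unfold IsRot
  have : ((LinearIsometryEquiv.refl ℝ (E n)).toLinearEquiv.toLinearMap : E n →ₗ[ℝ] E n) = LinearMap.id := rfl
  rw [this, LinearMap.det_id]

private theorem refl_apply (a w : E n) :
    ((ℝ ∙ a)ᗮ).reflection w = w - (2 : ℝ) • (inner ℝ (‖a‖⁻¹ • a) w : ℝ) • (‖a‖⁻¹ • a) := by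
  rw [Submodule.reflection_orthogonal_apply, Submodule.reflection_singleton_apply, inner_smul_left, neg_sub]
  simp only [RCLike.ofReal_real_eq_id, id, conj_trivial]
  have h1 : (inner ℝ a w : ℝ) / ‖a‖ ^ 2 = ‖a‖⁻¹ * inner ℝ a w * ‖a‖⁻¹ := by
    rw [div_eq_mul_inv, pow_two, mul_inv]
    ring
  have h2 : ((‖a‖⁻¹ * inner ℝ a w : ℝ) • ‖a‖⁻¹ • a : E n) = (‖a‖⁻¹ * inner ℝ a w * ‖a‖⁻¹ : ℝ) • a := smul_smul _ _ _
  rw [h1, two_nsmul, two_smul, h2]

/-- a rotation close to the identity which maps the unit vector `y₀` to `y` -/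
private theorem near_rot {y₀ y : E n} (h0 : ‖y₀‖ = 1) (hy : ‖y‖ = 1) (hne : y₀ + y ≠ 0) :
    ∃ R : E n ≃ₗᵢ[ℝ] E n, IsRot R ∧ R y₀ = y ∧
      ∀ w : E n, ‖w‖ = 1 → ‖R w - w‖ ≤ 4 * ‖‖y₀ + y‖⁻¹ • (y₀ + y) - y₀‖ := by
  have hy0 : y₀ ≠ 0 := by
    rintro rfl
    rw [norm_zero] at h0
    exact zero_ne_one h0
  set R1 : E n ≃ₗᵢ[ℝ] E n := ((ℝ ∙ (y₀ + y))ᗮ).reflection with hR1
  set R2 : E n ≃ₗᵢ[ℝ] E n := ((ℝ ∙ y₀)ᗮ).reflection with hR2
  have hd : ∀ v : E n, v ≠ 0 →
      LinearMap.det ((((ℝ ∙ v)ᗮ).reflection).toLinearEquiv.toLinearMap : E n →ₗ[ℝ] E n) = -1 := by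
    intro v hv
    have h1 := Submodule.det_reflection (𝕜 := ℝ) ((ℝ ∙ v)ᗮ)
    rw [Submodule.orthogonal_orthogonal, finrank_span_singleton hv, pow_one] at h1
    exact h1
  have hN : ‖y₀ + y‖ ≠ 0 := norm_ne_zero_iff.2 hne
  have hN2 : ‖y₀ + y‖ ^ 2 = 2 + 2 * (inner ℝ y₀ y : ℝ) := by
    rw [norm_add_sq_real, h0, hy]
    ring
  refine ⟨R2.trans R1, ?_, ?_, ?_⟩
  · unfold IsRot
    have e1 : ((R2.trans R1).toLinearEquiv.toLinearMap : E n →ₗ[ℝ] E n)
        = (R1.toLinearEquiv.toLinearMap : E n →ₗ[ℝ] E n) ∘ₗ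
          (R2.toLinearEquiv.toLinearMap : E n →ₗ[ℝ] E n) := rfl
    rw [e1, LinearMap.det_comp, hR1, hR2, hd _ hne, hd _ hy0]
    norm_num
  · rw [LinearIsometryEquiv.trans_apply]
    have h2 : R2 y₀ = -y₀ := by
      rw [hR2]
      exact Submodule.reflection_orthogonalComplement_singleton_eq_neg y₀
    have h3 : R1 y₀ = -y := by
      rw [hR1, refl_apply, inner_smul_left, smul_smul, smul_smul, inner_add_left, real_inner_self_eq_norm_sq, h0]
      have h4 : (2 : ℝ) * ((starRingEnd ℝ) ‖y₀ + y‖⁻¹ * (1 ^ 2 + (inner ℝ y y₀ : ℝ))) * ‖y₀ + y‖⁻¹ = 1 := by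
        have h5 : (inner ℝ y y₀ : ℝ) = inner ℝ y₀ y := real_inner_comm _ _
        have h6 : 2 * (1 + (inner ℝ y₀ y : ℝ)) = ‖y₀ + y‖ ^ 2 := by
          rw [hN2]
          ring
        rw [conj_trivial, h5]
        field_simp
        linarith
      rw [h4, one_smul]
      abel
    rw [h2, map_neg, h3, neg_neg]
  · intro w hw
    have h1 : ‖(R2.trans R1) w - w‖ = ‖R2 w - R1 w‖ := by
      have h2 : w = R1 (R1 w) := by
        rw [hR1]
        exact (Submodule.reflection_reflection _ _).symm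
      calc ‖(R2.trans R1) w - w‖ = ‖R1 (R2 w) - R1 (R1 w)‖ := by
            rw [LinearIsometryEquiv.trans_apply, ← h2]
        _ = ‖R1 (R2 w - R1 w)‖ := by rw [map_sub]
        _ = ‖R2 w - R1 w‖ := R1.norm_map _
    rw [h1, hR1, hR2, refl_apply, refl_apply]
    set a : E n := ‖y₀ + y‖⁻¹ • (y₀ + y) with ha
    have hy1 : ‖y₀‖⁻¹ • y₀ = y₀ := by rw [h0, inv_one, one_smul]
    have ha1 : ‖a‖ = 1 := by
      rw [ha, norm_smul, norm_inv, norm_norm, inv_mul_cancel₀ hN]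
    rw [hy1]
    have h3 : w - (2 : ℝ) • (inner ℝ y₀ w : ℝ) • y₀ - (w - (2 : ℝ) • (inner ℝ a w : ℝ) • a) =
        (2 : ℝ) • ((inner ℝ (a - y₀) w : ℝ) • a + (inner ℝ y₀ w : ℝ) • (a - y₀)) := by
      rw [inner_sub_left]
      module
    rw [h3, norm_smul]
    have h4 : ‖(inner ℝ (a - y₀) w : ℝ) • a‖ ≤ ‖a - y₀‖ := by
      rw [norm_smul, ha1, mul_one]
      have := norm_inner_le_norm (𝕜 := ℝ) (a - y₀) w
      rwa [hw, mul_one] at this
    have h5 : ‖(inner ℝ y₀ w : ℝ) • (a - y₀)‖ ≤ ‖a - y₀‖ := by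
      rw [norm_smul]
      have := norm_inner_le_norm (𝕜 := ℝ) y₀ w
      rw [hw, h0, mul_one] at this
      calc _ ≤ 1 * ‖a - y₀‖ := mul_le_mul_of_nonneg_right this (norm_nonneg _)
        _ = _ := one_mul _
    have h6 := norm_add_le ((inner ℝ (a - y₀) w : ℝ) • a) ((inner ℝ y₀ w : ℝ) • (a - y₀))
    rw [Real.norm_eq_abs, abs_of_pos (by norm_num : (0 : ℝ) < 2)]
    linarith

/-! ### the functional -/

private noncomputable def II (P N : Measure (sphere (0 : E n) 1)) (h : E n → ℝ) (θ : E n ≃ₗᵢ[ℝ] E n) : ℝ :=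
  ∫ w : sphere (0 : E n) 1, h (θ (w : E n)) ∂P - ∫ w : sphere (0 : E n) 1, h (θ (w : E n)) ∂N

private theorem integ (P : Measure (sphere (0 : E n) 1)) [IsFiniteMeasure P] {h : E n → ℝ} (hh : Continuous h)
    (θ : E n ≃ₗᵢ[ℝ] E n) : Integrable (fun w : sphere (0 : E n) 1 => h (θ (w : E n))) P := by
  have hc : Continuous (fun w : sphere (0 : E n) 1 => h (θ (w : E n))) :=
    hh.comp (θ.continuous.comp continuous_subtype_val)
  exact hc.integrable_of_hasCompactSupport (HasCompactSupport.of_compactSpace _)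

private theorem int_fix {e : E n} {P : Measure (sphere (0 : E n) 1)} (hP : Zon e P) {θ η : E n ≃ₗᵢ[ℝ] E n}
    (hθ : IsRot θ) (hη : IsRot η) (h1 : θ e = η e) {h : E n → ℝ} (hh : Continuous h) :
    ∫ w : sphere (0 : E n) 1, h (η (w : E n)) ∂P = ∫ w : sphere (0 : E n) 1, h (θ (w : E n)) ∂P := by
  have h2 := hP (η.trans θ.symm) (isRot_trans hη (isRot_symm hθ))
    (by rw [LinearIsometryEquiv.trans_apply, ← h1, LinearIsometryEquiv.symm_apply_apply])
    (fun z => h (θ z)) (hh.comp θ.continuous)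
  simp only [LinearIsometryEquiv.trans_apply, LinearIsometryEquiv.apply_symm_apply] at h2
  exact h2

private theorem II_fix {e : E n} {P N : Measure (sphere (0 : E n) 1)} (hP : Zon e P) (hN : Zon e N)
    {θ η : E n ≃ₗᵢ[ℝ] E n} (hθ : IsRot θ) (hη : IsRot η) (h1 : θ e = η e) {h : E n → ℝ} (hh : Continuous h) :
    II P N h η = II P N h θ := by
  unfold II
  rw [int_fix hP hθ hη h1 hh, int_fix hN hθ hη h1 hh]

private theorem int_close (P : Measure (sphere (0 : E n) 1)) [IsFiniteMeasure P] {h k : E n → ℝ} (hh : Continuous h)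
    (hk : Continuous k) (θ η : E n ≃ₗᵢ[ℝ] E n) {δ : ℝ} (hδ : ∀ w : E n, ‖w‖ = 1 → |h (θ w) - k (η w)| ≤ δ) :
    |∫ w : sphere (0 : E n) 1, h (θ (w : E n)) ∂P - ∫ w : sphere (0 : E n) 1, k (η (w : E n)) ∂P| ≤ δ * P.real univ := by
  rw [← integral_sub (integ P hh θ) (integ P hk η), ← Real.norm_eq_abs]
  refine norm_integral_le_of_norm_le_const (Eventually.of_forall fun w => ?_)
  rw [Real.norm_eq_abs]
  exact hδ w (mem_sphere_zero_iff_norm.1 w.2)

private theorem II_close (P N : Measure (sphere (0 : E n) 1)) [IsFiniteMeasure P] [IsFiniteMeasure N] {h k : E n → ℝ}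
    (hh : Continuous h) (hk : Continuous k) (θ η : E n ≃ₗᵢ[ℝ] E n) {δ : ℝ}
    (hδ : ∀ w : E n, ‖w‖ = 1 → |h (θ w) - k (η w)| ≤ δ) :
    |II P N h θ - II P N k η| ≤ (P.real univ + N.real univ) * δ := by
  have h1 := int_close P hh hk θ η hδ
  have h2 := int_close N hh hk θ η hδ
  unfold II
  rw [abs_le] at *
  constructor <;> nlinarith [h1.1, h1.2, h2.1, h2.2]

theorem hM : StA → StM := by
  intro _hA n e P N hn he _ _ hP hN
  have hex : ∀ y : E n, ∃ θ : E n ≃ₗᵢ[ℝ] E n, IsRot θ ∧ (‖y‖ = 1 → θ e = y) := by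
    intro y
    by_cases hy : ‖y‖ = 1
    · obtain ⟨θ, h1, h2⟩ := exists_rot hn he hy
      exact ⟨θ, h1, fun _ => h2⟩
    · exact ⟨LinearIsometryEquiv.refl ℝ (E n), isRot_refl, fun h => absurd h hy⟩
  choose ρ hρ1 hρ2 using hex
  set F : (E n → ℝ) → E n → ℝ := fun h x => ‖x‖ * II P N h (ρ (‖x‖⁻¹ • x)) with hF
  set M : ℝ := P.real univ + N.real univ with hMdef
  have hM0 : 0 ≤ M := add_nonneg measureReal_nonneg measureReal_nonneg
  have unit : ∀ x : E n, x ≠ 0 → ‖‖x‖⁻¹ • x‖ = 1 := by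
    intro x hx
    rw [norm_smul, norm_inv, norm_norm, inv_mul_cancel₀ (norm_ne_zero_iff.2 hx)]
  have Fzero : ∀ h : E n → ℝ, F h 0 = 0 := by
    intro h
    simp only [hF, norm_zero, zero_mul]
  have hom : ∀ h : E n → ℝ, ∀ c : ℝ, 0 ≤ c → ∀ x, F h (c • x) = c * F h x := by
    intro h c hc x
    rcases hc.eq_or_lt with rfl | hc
    · rw [zero_smul, zero_mul, Fzero]
    · simp only [hF]
      have h1 : ‖c • x‖⁻¹ • (c • x) = ‖x‖⁻¹ • x := by
        rw [norm_smul, Real.norm_eq_abs, abs_of_pos hc, smul_smul, mul_inv]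
        congr 1
        field_simp
      rw [h1, norm_smul, Real.norm_eq_abs, abs_of_pos hc]
      ring
  have pole' : ∀ h : E n → ℝ, Continuous h → ∀ θ : E n ≃ₗᵢ[ℝ] E n, IsRot θ → F h (θ e) = II P N h θ := by
    intro h hh θ hθ
    have h1 : ‖θ e‖ = 1 := by rw [θ.norm_map, he]
    simp only [hF]
    rw [h1, inv_one, one_smul, one_mul]
    exact II_fix hP hN hθ (hρ1 _) (hρ2 _ h1).symm hh
  have rep : ∀ h : E n → ℝ, Continuous h → ∀ θ : E n ≃ₗᵢ[ℝ] E n, IsRot θ → ∀ x : E n, θ e = ‖x‖⁻¹ • x →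
      F h x = ‖x‖ * II P N h θ := by
    intro h hh θ hθ x hx
    by_cases h0 : x = 0
    · subst h0
      rw [Fzero, norm_zero, zero_mul]
    · have h1 : x = ‖x‖ • θ e := by
        rw [hx, smul_smul, mul_inv_cancel₀ (norm_ne_zero_iff.2 h0), one_smul]
      calc F h x = F h (‖x‖ • θ e) := by rw [← h1]
        _ = ‖x‖ * F h (θ e) := hom h _ (norm_nonneg _) _
        _ = _ := by rw [pole' h hh θ hθ]
  have close : ∀ h k : E n → ℝ, Continuous h → Continuous k → ∀ δ : ℝ,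
      (∀ x, ‖x‖ = 1 → |h x - k x| ≤ δ) → ∀ x, |F h x - F k x| ≤ M * δ * ‖x‖ := by
    intro h k hh hk δ hδ x
    simp only [hF]
    rw [← mul_sub, abs_mul, abs_norm, mul_comm]
    refine mul_le_mul_of_nonneg_right ?_ (norm_nonneg _)
    exact II_close P N hh hk _ _ fun w hw => hδ _ (by rw [LinearIsometryEquiv.norm_map, hw])
  -- continuity on the sphere
  have contS : ∀ h : E n → ℝ, Continuous h → ContinuousOn (F h) (sphere 0 1) := by
    intro h hh y₀ hy₀
    have hy0 : ‖y₀‖ = 1 := by simpa using hy₀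
    have hne0 : y₀ + y₀ ≠ 0 := by
      intro h1
      have h2 : y₀ = 0 := by
        have : (2 : ℝ) • y₀ = 0 := by rw [two_smul]; exact h1
        exact (smul_eq_zero.1 this).resolve_left (by norm_num)
      rw [h2, norm_zero] at hy0
      exact zero_ne_one hy0
    have hu := (isCompact_sphere (0 : E n) 1).uniformContinuousOn_of_continuous hh.continuousOn
    rw [Metric.uniformContinuousOn_iff] at hu
    have hlim : ContinuousAt (fun y : E n => 4 * ‖‖y₀ + y‖⁻¹ • (y₀ + y) - y₀‖) y₀ := by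
      have h1 : ContinuousAt (fun y : E n => y₀ + y) y₀ := by fun_prop
      have h2 : ContinuousAt (fun y : E n => ‖y₀ + y‖⁻¹) y₀ := h1.norm.inv₀ (norm_ne_zero_iff.2 hne0)
      exact ((h2.smul h1).sub continuousAt_const).norm.const_mul 4
    have hval : 4 * ‖‖y₀ + y₀‖⁻¹ • (y₀ + y₀) - y₀‖ = 0 := by
      have h1 : ‖y₀ + y₀‖ = 2 := by
        rw [← two_smul ℝ y₀, norm_smul, hy0]
        norm_num
      have h2 : ‖y₀ + y₀‖⁻¹ • (y₀ + y₀) = y₀ := by
        rw [h1, ← two_smul ℝ y₀, smul_smul]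
        norm_num
      rw [h2, sub_self, norm_zero, mul_zero]
    rw [Metric.continuousWithinAt_iff]
    intro ε hε
    obtain ⟨δ, hδ, hu⟩ := hu (ε / (M + 1)) (by positivity)
    have hev : ∀ᶠ y in 𝓝 y₀, 4 * ‖‖y₀ + y‖⁻¹ • (y₀ + y) - y₀‖ < δ := by
      have := hlim.eventually_lt_const (u := δ) (hval.trans_lt hδ)
      exact this
    have hev2 : ∀ᶠ y in 𝓝 y₀, y₀ + y ≠ 0 := by
      have h1 : ContinuousAt (fun y : E n => y₀ + y) y₀ := by fun_prop
      exact h1.eventually_ne hne0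
    obtain ⟨r, hr, hball⟩ := Metric.eventually_nhds_iff.1 (hev.and hev2)
    refine ⟨r, hr, fun y hy hd => ?_⟩
    have hy1 : ‖y‖ = 1 := by simpa using hy
    obtain ⟨hb1, hb2⟩ := hball hd
    obtain ⟨R, hR, hRy, hRw⟩ := near_rot hy0 hy1 hb2
    have e1 : F h y = II P N h ((ρ y₀).trans R) := by
      have h1 := pole' h hh ((ρ y₀).trans R) (isRot_trans (hρ1 _) hR)
      rw [LinearIsometryEquiv.trans_apply, hρ2 _ hy0, hRy] at h1
      exact h1
    have e2 : F h y₀ = II P N h (ρ y₀) := by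
      have h1 := pole' h hh (ρ y₀) (hρ1 _)
      rw [hρ2 _ hy0] at h1
      exact h1
    rw [Real.dist_eq, e1, e2]
    have h3 : |II P N h ((ρ y₀).trans R) - II P N h (ρ y₀)| ≤ M * (ε / (M + 1)) := by
      refine II_close P N hh hh _ _ fun w hw => ?_
      have hw1 : ‖ρ y₀ w‖ = 1 := by rw [LinearIsometryEquiv.norm_map, hw]
      rw [LinearIsometryEquiv.trans_apply, ← Real.dist_eq]
      refine (hu _ ?_ _ ?_ ?_).le
      · rw [mem_sphere_zero_iff_norm, LinearIsometryEquiv.norm_map, hw1]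
      · rw [mem_sphere_zero_iff_norm, hw1]
      · rw [dist_eq_norm]
        exact (hRw _ hw1).trans_lt hb1
    refine h3.trans_lt ?_
    have h4 : M * (ε / (M + 1)) = ε * (M / (M + 1)) := by ring
    rw [h4]
    have h5 : M / (M + 1) < 1 := by
      rw [div_lt_one (by linarith)]
      linarith
    nlinarith
  have cont : ∀ h : E n → ℝ, Continuous h → Continuous (F h) := by
    intro h hh
    rw [continuous_iff_continuousAt]
    intro x₀
    by_cases hx0 : x₀ = 0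
    · subst hx0
      obtain ⟨B, hB⟩ : ∃ B : ℝ, ∀ x : E n, ‖x‖ = 1 → |h x| ≤ B := by
        obtain ⟨B, hB⟩ := (isCompact_sphere (0 : E n) 1).exists_bound_of_continuousOn hh.continuousOn
        exact ⟨B, fun x hx => hB x (by rw [mem_sphere_zero_iff_norm, hx])⟩
      have hk : ∀ x, |F h x| ≤ M * B * ‖x‖ := by
        intro x
        have h1 := close h (fun _ => 0) hh continuous_const B (fun x hx => by simpa using hB x hx) x
        have h2 : F (fun _ => 0) x = 0 := by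
          simp only [hF, II, integral_zero, sub_self, mul_zero]
        rwa [h2, sub_zero] at h1
      rw [ContinuousAt, Fzero]
      refine squeeze_zero_norm (a := fun x => M * B * ‖x‖) (fun x => (Real.norm_eq_abs (F h x)).trans_le (hk x)) ?_
      have h3 : Tendsto (fun x : E n => M * B * ‖x‖) (𝓝 0) (𝓝 (M * B * ‖(0 : E n)‖)) :=
        (continuous_norm.const_mul _ |>.tendsto _) 
      simpa using h3
    · have h1 : ContinuousAt (fun x : E n => ‖x‖⁻¹ • x) x₀ :=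
        (continuousAt_id.norm.inv₀ (norm_ne_zero_iff.2 hx0)).smul continuousAt_id
      have h2 : Tendsto (fun x : E n => ‖x‖⁻¹ • x) (𝓝 x₀) (𝓝[sphere (0 : E n) 1] (‖x₀‖⁻¹ • x₀)) := by
        refine tendsto_nhdsWithin_iff.2 ⟨h1, ?_⟩
        filter_upwards [_root_.isOpen_ne.mem_nhds hx0] with x hx
        rw [mem_sphere_zero_iff_norm]
        exact unit x hx
      have h3 : Tendsto (fun x : E n => F h (‖x‖⁻¹ • x)) (𝓝 x₀) (𝓝 (F h (‖x₀‖⁻¹ • x₀))) :=
        (contS h hh _ (by rw [mem_sphere_zero_iff_norm]; exact unit x₀ hx0)).tendsto.comp h2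
      have h4 : Tendsto (fun x : E n => ‖x‖ * F h (‖x‖⁻¹ • x)) (𝓝 x₀) (𝓝 (‖x₀‖ * F h (‖x₀‖⁻¹ • x₀))) :=
        (continuous_norm.tendsto x₀).mul h3
      have h5 : ∀ x : E n, ‖x‖ * F h (‖x‖⁻¹ • x) = F h x := by
        intro x
        by_cases hx : x = 0
        · subst hx
          rw [Fzero, norm_zero, zero_mul]
        · rw [← hom h _ (norm_nonneg _), smul_smul, mul_inv_cancel₀ (norm_ne_zero_iff.2 hx), one_smul]
      simp only [h5] at h4
      exact h4
  refine ⟨F, M, hM0, ⟨hom, ?_, close, cont, ?_, ?_⟩⟩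
  · intro h hh θ hθ
    rw [pole' h hh θ hθ]
    rfl
  · intro h k hh hk x
    simp only [hF, II]
    rw [integral_add (integ P hh _) (integ P hk _), integral_add (integ N hh _) (integ N hk _)]
    ring
  · intro θ hθ h hh x
    by_cases hx : x = 0
    · subst hx
      rw [map_zero, Fzero, Fzero]
    · have h1 : F (fun z => h (θ z)) x = ‖x‖ * II P N (fun z => h (θ z)) (ρ (‖x‖⁻¹ • x)) := rfl
      have h2 : F h (θ x) = ‖θ x‖ * II P N h ((ρ (‖x‖⁻¹ • x)).trans θ) := by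
        refine rep h hh _ (isRot_trans (hρ1 _) hθ) _ ?_
        rw [LinearIsometryEquiv.trans_apply, hρ2 _ (unit x hx), LinearIsometryEquiv.norm_map, map_smul]
      rw [h1, h2, LinearIsometryEquiv.norm_map]
      rfl

end Pool.Agent.Helper56.PM
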