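import Pool.Agent.Helper62.PM.St4

/-!
# Project PM (MP_ae3a4d_gt): module NM, comparison of measures on `(-1,1)` by smooth functions
-/

set_option autoImplicit false

open MeasureTheory Metric Set Filter Topology
open scoped RealInnerProductSpace ContDiff

namespace Pool.Agent.Helper56.PM

open Pool.Agent.Helper62.PM
open Pool.Agent.Helper62.Mink

private theorem comp_le (μ₁ μ₂ : Measure ℝ) [IsFiniteMeasure μ₁]
    (h2 : ∀ K : Set ℝ, IsCompact K → K ⊆ Ioo (-1 : ℝ) 1 → μ₂ K < ⊤)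
    (hφ : ∀ φ : ℝ → ℝ, ContDiff ℝ ∞ φ → HasCompactSupport φ → tsupport φ ⊆ Ioo (-1 : ℝ) 1 →
      (∀ t, 0 ≤ φ t) → ∫ t, φ t ∂μ₁ ≤ ∫ t, φ t ∂μ₂)
    (K : Set ℝ) (hK : IsCompact K) (hK1 : K ⊆ Ioo (-1 : ℝ) 1) : μ₁ K ≤ μ₂ K := by
  refine ENNReal.le_of_forall_pos_le_add fun ε hε _ => ?_
  obtain ⟨V, hVo, hKV, hVI, hVc⟩ := exists_open_between_and_isCompact_closure hK isOpen_Ioo hK1
  have hfin : μ₂ (closure V) < ⊤ := h2 _ hVc hVI
  have : IsFiniteMeasure (μ₂.restrict (closure V)) := isFiniteMeasure_restrict.2 hfin.ne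
  obtain ⟨U, hKU, hUo, hU⟩ := K.exists_isOpen_lt_add (μ := μ₂.restrict (closure V)) (measure_ne_top _ _)
    (ε := (ε : ENNReal)) (by exact_mod_cast hε.ne')
  have hWo : IsOpen (U ∩ V) := hUo.inter hVo
  have hKW : K ⊆ U ∩ V := subset_inter hKU hKV
  have hW : μ₂ (U ∩ V) ≤ μ₂ K + ε := by
    have h3 : μ₂ (U ∩ V) ≤ μ₂.restrict (closure V) U := by
      rw [Measure.restrict_apply hUo.measurableSet]
      exact measure_mono (inter_subset_inter_right _ subset_closure)
    have h4 : μ₂.restrict (closure V) K ≤ μ₂ K := Measure.restrict_apply_le _ _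
    exact h3.trans (hU.le.trans (add_le_add_left h4 _))
  obtain ⟨f, hf0, hf1, hf01⟩ := exists_contMDiffMap_zero_one_of_isClosed (n := (⊤ : ℕ∞)) (modelWithCornersSelf ℝ ℝ)
    (s := (U ∩ V)ᶜ) (t := K) hWo.isClosed_compl hK.isClosed (disjoint_compl_left_iff_subset.2 hKW)
  have hfc : ContDiff ℝ ∞ (f : ℝ → ℝ) := f.contMDiff.contDiff
  have hsup : Function.support (f : ℝ → ℝ) ⊆ U ∩ V := by
    intro x hx
    by_contra hx1
    exact hx (hf0 hx1)
  have hts : tsupport (f : ℝ → ℝ) ⊆ closure V := closure_mono (hsup.trans inter_subset_right)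
  have hcs : HasCompactSupport (f : ℝ → ℝ) := hVc.of_isClosed_subset (isClosed_tsupport _) hts
  have hint := hφ f hfc hcs (hts.trans hVI) (fun t => (hf01 t).1)
  have h1 : μ₁ K ≤ ENNReal.ofReal (∫ t, f t ∂μ₁) := by
    rw [ofReal_integral_eq_lintegral_ofReal (hfc.continuous.integrable_of_hasCompactSupport hcs)
      (Eventually.of_forall fun t => (hf01 t).1)]
    calc μ₁ K = ∫⁻ t in K, 1 ∂μ₁ := by simp
      _ ≤ ∫⁻ t in K, ENNReal.ofReal (f t) ∂μ₁ := by
          refine setLIntegral_mono' hK.measurableSet fun t ht => ?_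
          rw [hf1 ht]
          simp
      _ ≤ _ := setLIntegral_le_lintegral _ _
  have h3 : ENNReal.ofReal (∫ t, f t ∂μ₂) ≤ μ₂ (U ∩ V) := by
    rw [integral_eq_lintegral_of_nonneg_ae (Eventually.of_forall fun t => (hf01 t).1)
      hfc.continuous.aestronglyMeasurable]
    refine ENNReal.ofReal_toReal_le.trans ?_
    calc ∫⁻ t, ENNReal.ofReal (f t) ∂μ₂ ≤ ∫⁻ t, (U ∩ V).indicator 1 t ∂μ₂ := by
          refine lintegral_mono fun t => ?_
          by_cases ht : t ∈ U ∩ V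
          · rw [indicator_of_mem ht]
            simpa using (hf01 t).2
          · have : f t = 0 := hf0 ht
            simp [this]
      _ = μ₂ (U ∩ V) := by rw [lintegral_indicator_one hWo.measurableSet]
  exact h1.trans ((ENNReal.ofReal_le_ofReal hint).trans (h3.trans hW))

theorem hNM : StNM := by
  intro μ₁ μ₂ h1 h2 hφ B hB hB1
  rw [hB.measure_eq_iSup_isCompact_of_ne_top (measure_ne_top μ₁ B)]
  exact iSup_le fun K => iSup_le fun hKB => iSup_le fun hK =>
    (comp_le μ₁ μ₂ h2 hφ K hK (hKB.trans hB1)).trans (measure_mono hKB)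

end Pool.Agent.Helper56.PM
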